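import Pool.Agent.helper2.DKZ.Defs

set_option autoImplicit false

open scoped Matrix Kronecker ComplexConjugate BigOperators
open Matrix

namespace Pool.Agent.helper2.DKZ

variable {d : ℕ}

/-- the overlap `∑_j u_{x,a}(j) w_{y,b}(j)` -/
noncomputable def ov (u w : Fin 2 → Fin d → (Fin d → ℂ)) (x y : Fin 2) (a b : Fin d) : ℂ :=
  ∑ j, u x a j * w y b j

lemma trace_rank_one {ι : Type*} [Fintype ι] [DecidableEq ι] (φ : ι → ℂ) (M : Matrix ι ι ℂ) :
    trace (vecMulVec φ (star φ) * M) = ∑ i, ∑ j, star (φ i) * M i j * φ j := by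
  simp only [Matrix.trace, Matrix.diag, Matrix.mul_apply, vecMulVec_apply]
  rw [Finset.sum_comm]
  refine Finset.sum_congr rfl fun i _ => Finset.sum_congr rfl fun j _ => ?_
  simp only [Pi.star_apply]
  ring

lemma trace_proj (z : Fin d → ℂ) : trace (vecMulVec z (star z)) = star z ⬝ᵥ z := by
  simp [Matrix.trace, Matrix.diag, vecMulVec_apply, dotProduct, mul_comm]

lemma behaviour_eq {v : ℝ} {u w : Fin 2 → Fin d → (Fin d → ℂ)} (hu : IsMeas u) (hw : IsMeas w)
    (x y : Fin 2) (a b : Fin d) :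
    behaviour v u w x y a b = v * (‖ov u w x y a b‖ ^ 2 / d) + (1 - v) / (d : ℝ) ^ 2 := by
  unfold behaviour rhoMat
  rw [add_mul, trace_add, Matrix.smul_mul, Matrix.smul_mul, trace_smul, trace_smul, one_mul,
    trace_kronecker, trace_proj, trace_proj, hu x a a, hw y b b, trace_rank_one]
  have hd : 0 < d := Fin.pos a
  have hd' : (0 : ℝ) < d := by exact_mod_cast hd
  have hs : (((Real.sqrt d)⁻¹ : ℝ) : ℂ) * (((Real.sqrt d)⁻¹ : ℝ) : ℂ) = (((d : ℝ)⁻¹ : ℝ) : ℂ) := by
    rw [← Complex.ofReal_mul, ← mul_inv, Real.mul_self_sqrt hd'.le]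
  have key : ∑ i, ∑ j, star (phiVec d i) *
      (vecMulVec (u x a) (star (u x a)) ⊗ₖ vecMulVec (w y b) (star (w y b))) i j * phiVec d j
      = (((‖ov u w x y a b‖ ^ 2 / d : ℝ)) : ℂ) := by
    have h1 : ∀ i j : Fin d × Fin d, star (phiVec d i) *
        (vecMulVec (u x a) (star (u x a)) ⊗ₖ vecMulVec (w y b) (star (w y b))) i j * phiVec d j
        = (if i.1 = i.2 then (((Real.sqrt d)⁻¹ : ℝ) : ℂ) * (u x a i.1 * w y b i.2) else 0) *
          (if j.1 = j.2 then (((Real.sqrt d)⁻¹ : ℝ) : ℂ) * (star (u x a j.1) * star (w y b j.2))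
            else 0) := by
      intro i j
      simp only [phiVec, kroneckerMap_apply, vecMulVec_apply, Pi.star_apply]
      by_cases h1 : i.1 = i.2
      · by_cases h2 : j.1 = j.2
        · simp only [h1, h2, if_true]
          simp only [Complex.star_def, Complex.conj_ofReal]
          ring
        · simp [h2]
      · simp [h1]
    simp_rw [h1]
    rw [← Finset.sum_mul_sum]
    have h2 : ∑ i : Fin d × Fin d, (if i.1 = i.2 then (((Real.sqrt d)⁻¹ : ℝ) : ℂ) *
        (u x a i.1 * w y b i.2) else 0) = (((Real.sqrt d)⁻¹ : ℝ) : ℂ) * ov u w x y a b := by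
      rw [Fintype.sum_prod_type]
      simp [ov, Finset.mul_sum]
    have h3 : ∑ i : Fin d × Fin d, (if i.1 = i.2 then (((Real.sqrt d)⁻¹ : ℝ) : ℂ) *
        (star (u x a i.1) * star (w y b i.2)) else 0)
        = (((Real.sqrt d)⁻¹ : ℝ) : ℂ) * star (ov u w x y a b) := by
      rw [Fintype.sum_prod_type]
      simp [ov, Finset.mul_sum, star_sum]
    rw [h2, h3]
    have h4 : ov u w x y a b * star (ov u w x y a b) = ((‖ov u w x y a b‖ ^ 2 : ℝ) : ℂ) := by
      rw [Complex.star_def, Complex.mul_conj, Complex.normSq_eq_norm_sq]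
    calc (((Real.sqrt d)⁻¹ : ℝ) : ℂ) * ov u w x y a b *
          ((((Real.sqrt d)⁻¹ : ℝ) : ℂ) * star (ov u w x y a b))
        = ((((Real.sqrt d)⁻¹ : ℝ) : ℂ) * (((Real.sqrt d)⁻¹ : ℝ) : ℂ)) *
          (ov u w x y a b * star (ov u w x y a b)) := by ring
      _ = _ := by rw [hs, h4]; push_cast; ring
  rw [key]
  simp only [if_true, mul_one]
  rw [smul_eq_mul, smul_eq_mul, mul_one, ← Complex.ofReal_mul, ← Complex.ofReal_add,
    Complex.ofReal_re]

/-- Local models over a finite probability space. -/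
lemma isLocal_of_model {Ω : Type*} [Fintype Ω] (P : Ω → ℝ) (hP : ∀ ω, 0 ≤ P ω)
    (hP1 : ∑ ω, P ω = 1) (A B : Ω → Fin 2 → Fin d) (p : Behaviour d)
    (hp : ∀ x y a b, p x y a b = ∑ ω, P ω * (if a = A ω x ∧ b = B ω y then 1 else 0)) :
    IsLocal p := by
  have hpe : p = ∑ ω, P ω • detBeh (A ω, B ω) := by
    funext x y a b
    rw [hp]
    simp [Finset.sum_apply, detBeh]
  rw [hpe]
  unfold IsLocal
  refine (convex_convexHull ℝ _).sum_mem (fun ω _ => hP ω) hP1 fun ω _ => ?_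
  exact subset_convexHull ℝ _ ⟨(A ω, B ω), rfl⟩

lemma IsLocal.combo {p q : Behaviour d} (hp : IsLocal p) (hq : IsLocal q) {s t : ℝ}
    (hs : 0 ≤ s) (ht : 0 ≤ t) (hst : s + t = 1) : IsLocal (s • p + t • q) :=
  (convex_convexHull ℝ _) hp hq hs ht hst

/-- A Bell functional bounded by `C` on deterministic strategies is bounded by `C` on local
behaviours. -/
lemma IsLocal.bell_le {p : Behaviour d} (hp : IsLocal p) (G : Behaviour d) (C : ℝ)
    (hG : ∀ f g : Fin 2 → Fin d, ∑ x, ∑ y, G x y (f x) (g y) ≤ C) :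
    ∑ x, ∑ y, ∑ a, ∑ b, G x y a b * p x y a b ≤ C := by
  have hconv : Convex ℝ {p : Behaviour d | ∑ x, ∑ y, ∑ a, ∑ b, G x y a b * p x y a b ≤ C} := by
    intro p1 h1 p2 h2 s t hs ht hst
    simp only [Set.mem_setOf_eq] at *
    have : ∑ x, ∑ y, ∑ a, ∑ b, G x y a b * (s • p1 + t • p2) x y a b
        = s * ∑ x, ∑ y, ∑ a, ∑ b, G x y a b * p1 x y a b
          + t * ∑ x, ∑ y, ∑ a, ∑ b, G x y a b * p2 x y a b := by
      simp only [Finset.mul_sum, ← Finset.sum_add_distrib]
      refine Finset.sum_congr rfl fun x _ => Finset.sum_congr rfl fun y _ =>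
        Finset.sum_congr rfl fun a _ => Finset.sum_congr rfl fun b _ => ?_
      simp only [Pi.add_apply, Pi.smul_apply, smul_eq_mul]
      ring
    rw [this]
    calc s * _ + t * _ ≤ s * C + t * C := by gcongr
      _ = C := by rw [← add_mul, hst, one_mul]
  have hsub : Set.range (detBeh (d := d)) ⊆
      {p : Behaviour d | ∑ x, ∑ y, ∑ a, ∑ b, G x y a b * p x y a b ≤ C} := by
    rintro _ ⟨⟨f, g⟩, rfl⟩
    simp only [Set.mem_setOf_eq, detBeh]
    refine le_of_eq_of_le ?_ (hG f g)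
    refine Finset.sum_congr rfl fun x _ => Finset.sum_congr rfl fun y _ => ?_
    simp [ite_and]
  exact convexHull_min hsub hconv hp

end Pool.Agent.helper2.DKZ
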