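import Mathlib

set_option autoImplicit false

open scoped BigOperators

namespace Pool.Agent.helper2.DKZ

/-- number of ones -/
def wt {n : ℕ} (e : Fin n → Bool) : ℕ := ∑ i, if e i = true then 1 else 0

/-- Bernoulli weights -/
noncomputable def pr (p : ℝ) (β : Bool) : ℝ := if β = true then p else 1 - p

lemma sum_prod_bool {n : ℕ} (f : Fin n → Bool → ℝ) :
    ∑ e : Fin n → Bool, ∏ i, f i (e i) = ∏ i, ∑ β, f i β := by
  rw [Finset.prod_univ_sum, Fintype.piFinset_univ]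

lemma sum_pr_pow {n : ℕ} (p c : ℝ) :
    ∑ e : Fin n → Bool, (∏ i, pr p (e i)) * c ^ wt e = (1 - p + p * c) ^ n := by
  have h1 : ∀ e : Fin n → Bool, (∏ i, pr p (e i)) * c ^ wt e
      = ∏ i, (pr p (e i) * c ^ (if e i = true then 1 else 0 : ℕ)) := by
    intro e
    rw [Finset.prod_mul_distrib, wt, Finset.prod_pow_eq_pow_sum]
  simp_rw [h1]
  rw [sum_prod_bool (fun _ β => pr p β * c ^ (if β = true then 1 else 0 : ℕ))]
  simp [pr]
  ring

lemma chernoff {n : ℕ} {p s θ : ℝ} (hp0 : 0 ≤ p) (hp1 : p ≤ 1) (hs : 0 ≤ s) :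
    ∑ e : Fin n → Bool, (∏ i, pr p (e i)) * (if θ * n ≤ wt e then 1 else 0)
      ≤ ((1 - p + p * Real.exp s) * Real.exp (-(s * θ))) ^ n := by
  have h0 : ∀ e : Fin n → Bool, 0 ≤ ∏ i, pr p (e i) := by
    intro e
    refine Finset.prod_nonneg fun i _ => ?_
    unfold pr; split_ifs <;> linarith
  have h1 : ∀ e : Fin n → Bool, (if θ * n ≤ wt e then (1 : ℝ) else 0) ≤
      Real.exp s ^ wt e * Real.exp (-(s * θ)) ^ n := by
    intro e
    rw [← Real.exp_nat_mul, ← Real.exp_nat_mul, ← Real.exp_add]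
    split_ifs with h
    · exact Real.one_le_exp (by nlinarith)
    · exact (Real.exp_pos _).le
  calc ∑ e : Fin n → Bool, (∏ i, pr p (e i)) * (if θ * n ≤ wt e then 1 else 0)
      ≤ ∑ e : Fin n → Bool, (∏ i, pr p (e i)) * (Real.exp s ^ wt e * Real.exp (-(s * θ)) ^ n) :=
        Finset.sum_le_sum fun e _ => mul_le_mul_of_nonneg_left (h1 e) (h0 e)
    _ = (∑ e : Fin n → Bool, (∏ i, pr p (e i)) * Real.exp s ^ wt e) *
          Real.exp (-(s * θ)) ^ n := by
        rw [Finset.sum_mul]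
        exact Finset.sum_congr rfl fun e _ => by ring
    _ = _ := by rw [sum_pr_pow, mul_pow]

lemma kappa_lt {p s θ : ℝ} (hp0 : 0 ≤ p) (hs : 0 < s) (hs1 : s ≤ 1) (h : p * (1 + s) < θ) :
    (1 - p + p * Real.exp s) * Real.exp (-(s * θ)) < 1 := by
  have h1 : Real.exp s ≤ 1 + s + s ^ 2 := by
    have := Real.abs_exp_sub_one_sub_id_le (x := s) (by rw [abs_of_pos hs]; exact hs1)
    have := (abs_le.mp this).2
    linarith
  have h2 : s * θ + 1 ≤ Real.exp (s * θ) := Real.add_one_le_exp _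
  rw [Real.exp_neg, ← div_eq_mul_inv, div_lt_one (Real.exp_pos _)]
  nlinarith [mul_le_mul_of_nonneg_left h1 hp0, mul_lt_mul_of_pos_left h hs]

lemma kappa_nonneg {p s θ : ℝ} (hp0 : 0 ≤ p) (hp1 : p ≤ 1) :
    0 ≤ (1 - p + p * Real.exp s) * Real.exp (-(s * θ)) := by
  have := Real.exp_pos s
  have := Real.exp_pos (-(s * θ))
  have : 0 ≤ 1 - p + p * Real.exp s := by nlinarith [mul_nonneg hp0 (Real.exp_pos s).le]
  positivity

/-- the loss threshold function -/
noncomputable def gthr (n w : ℕ) : ℝ :=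
  if (107 / 200 : ℝ) * n ≤ w then -2 else if (31 / 200 : ℝ) * n ≤ w then 0 else 1

lemma gthr_le_one (n w : ℕ) : gthr n w ≤ 1 := by
  unfold gthr; split_ifs <;> norm_num

lemma gthr_lower1 (n w : ℕ) : 1 - 3 * (if (31 / 200 : ℝ) * n ≤ w then 1 else 0) ≤ gthr n w := by
  have hn : (0 : ℝ) ≤ n := by positivity
  unfold gthr
  split_ifs <;> first | (norm_num; done) | (exfalso; linarith)

lemma gthr_lower2 (n w : ℕ) : -2 * (if (107 / 200 : ℝ) * n ≤ w then (1 : ℝ) else 0) ≤ gthr n w := by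
  unfold gthr
  split_ifs <;> norm_num

lemma gthr_four {n w1 w2 w3 w4 : ℕ} (h : n ≤ w1 + w2 + w3 + w4) :
    gthr n w1 + gthr n w2 + gthr n w3 + gthr n w4 ≤ 2 := by
  have h' : (n : ℝ) ≤ w1 + w2 + w3 + w4 := by exact_mod_cast h
  by_contra hcon
  push Not at hcon
  unfold gthr at hcon
  split_ifs at hcon <;> linarith

/-- expectation of the threshold function under the quantum weights -/
lemma gthr_expect_low (n : ℕ) {p : ℝ} (hp0 : 0 ≤ p) (hp1 : p ≤ 1) :
    1 - 3 * ((1 - p + p * Real.exp (1 / 20)) * Real.exp (-(1 / 20 * (31 / 200)))) ^ n ≤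
      ∑ e : Fin n → Bool, (∏ i, pr p (e i)) * gthr n (wt e) := by
  have h0 : ∀ e : Fin n → Bool, 0 ≤ ∏ i, pr p (e i) := by
    intro e
    refine Finset.prod_nonneg fun i _ => ?_
    unfold pr; split_ifs <;> linarith
  have hs : ∑ e : Fin n → Bool, ∏ i, pr p (e i) = 1 := by
    have := sum_pr_pow (n := n) p 1
    simpa using this
  have hc := chernoff (n := n) (p := p) (s := 1 / 20) (θ := 31 / 200) hp0 hp1 (by norm_num)
  calc 1 - 3 * ((1 - p + p * Real.exp (1 / 20)) * Real.exp (-(1 / 20 * (31 / 200)))) ^ n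
      ≤ 1 - 3 * ∑ e : Fin n → Bool, (∏ i, pr p (e i)) *
          (if (31 / 200 : ℝ) * n ≤ wt e then 1 else 0) := by linarith
    _ = ∑ e : Fin n → Bool, (∏ i, pr p (e i)) *
          (1 - 3 * (if (31 / 200 : ℝ) * n ≤ wt e then 1 else 0)) := by
        simp only [mul_sub, mul_one, Finset.sum_sub_distrib, hs, Finset.mul_sum]
        congr 1
        exact Finset.sum_congr rfl fun e _ => by ring
    _ ≤ _ := Finset.sum_le_sum fun e _ => mul_le_mul_of_nonneg_left (gthr_lower1 n _) (h0 e)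

lemma gthr_expect_unif (n : ℕ) :
    -2 * ((1 - 1 / 2 + 1 / 2 * Real.exp (1 / 20)) * Real.exp (-(1 / 20 * (107 / 200)))) ^ n ≤
      ∑ e : Fin n → Bool, (1 / 2 : ℝ) ^ n * gthr n (wt e) := by
  have hc := chernoff (n := n) (p := 1 / 2) (s := 1 / 20) (θ := 107 / 200) (by norm_num)
    (by norm_num) (by norm_num)
  have h1 : ∀ e : Fin n → Bool, ∏ i, pr (1 / 2) (e i) = (1 / 2 : ℝ) ^ n := by
    intro e
    have : ∀ i, pr (1 / 2) (e i) = 1 / 2 := by intro i; unfold pr; split_ifs <;> norm_num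
    simp_rw [this]
    simp
  simp_rw [h1] at hc
  calc -2 * ((1 - 1 / 2 + 1 / 2 * Real.exp (1 / 20)) * Real.exp (-(1 / 20 * (107 / 200)))) ^ n
      ≤ -2 * ∑ e : Fin n → Bool, (1 / 2 : ℝ) ^ n *
          (if (107 / 200 : ℝ) * n ≤ wt e then 1 else 0) := by linarith
    _ = ∑ e : Fin n → Bool, (1 / 2 : ℝ) ^ n *
          (-2 * (if (107 / 200 : ℝ) * n ≤ wt e then (1 : ℝ) else 0)) := by
        rw [Finset.mul_sum]
        exact Finset.sum_congr rfl fun e _ => by ring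
    _ ≤ _ := Finset.sum_le_sum fun e _ => mul_le_mul_of_nonneg_left (gthr_lower2 n _)
        (by positivity)

end Pool.Agent.helper2.DKZ
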