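import Mathlib

set_option autoImplicit false

open scoped Matrix Kronecker ComplexConjugate BigOperators
open Matrix

namespace Pool.Agent.helper2.DKZ

/-- A behaviour for two parties, inputs `x, y : Fin 2` (the inputs 1, 2 of the text are `0, 1`)
and outputs in `Fin d`: `p x y a b` is `p(a, b | x, y)`. -/
abbrev Behaviour (d : ℕ) : Type := Fin 2 → Fin 2 → Fin d → Fin d → ℝ

/-- The deterministic behaviour given by `f, g : Fin 2 → Fin d`. -/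
def detBeh {d : ℕ} (fg : (Fin 2 → Fin d) × (Fin 2 → Fin d)) : Behaviour d :=
  fun x y a b => if a = fg.1 x ∧ b = fg.2 y then 1 else 0

/-- Local behaviours: convex combinations of deterministic ones. -/
def IsLocal {d : ℕ} (p : Behaviour d) : Prop :=
  p ∈ convexHull ℝ (Set.range (detBeh (d := d)))

/-- The maximally entangled vector `d^{-1/2} ∑_j |j⟩|j⟩`. -/
noncomputable def phiVec (d : ℕ) : Fin d × Fin d → ℂ :=
  fun ij => if ij.1 = ij.2 then (((Real.sqrt d)⁻¹ : ℝ) : ℂ) else 0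

/-- The isotropic state `v |Φ⟩⟨Φ| + (1 - v) 1/d²`. -/
noncomputable def rhoMat (d : ℕ) (v : ℝ) : Matrix (Fin d × Fin d) (Fin d × Fin d) ℂ :=
  (v : ℂ) • vecMulVec (phiVec d) (star (phiVec d)) +
    (((1 - v) / (d : ℝ) ^ 2 : ℝ) : ℂ) • (1 : Matrix (Fin d × Fin d) (Fin d × Fin d) ℂ)

/-- `u x a` is the `a`-th vector of the basis measured for input `x`; for each `x` the `d` vectors
are orthonormal, hence an orthonormal basis of `ℂ^d`. -/
def IsMeas {d : ℕ} (u : Fin 2 → Fin d → (Fin d → ℂ)) : Prop :=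
  ∀ x a a', star (u x a) ⬝ᵥ u x a' = if a = a' then 1 else 0

/-- `p_v(a,b|x,y) = Tr[ρ_v (|u_{x,a}⟩⟨u_{x,a}| ⊗ |w_{y,b}⟩⟨w_{y,b}|)]`. -/
noncomputable def behaviour {d : ℕ} (v : ℝ) (u w : Fin 2 → Fin d → (Fin d → ℂ)) : Behaviour d :=
  fun x y a b => (trace (rhoMat d v *
    (vecMulVec (u x a) (star (u x a)) ⊗ₖ vecMulVec (w y b) (star (w y b))))).re

/-- The critical visibility `v* = sup {v ∈ [0,1] : p_v is local}`. -/
noncomputable def critVis {d : ℕ} (u w : Fin 2 → Fin d → (Fin d → ℂ)) : ℝ :=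
  sSup {v : ℝ | v ∈ Set.Icc (0 : ℝ) 1 ∧ IsLocal (behaviour v u w)}

/-- Alice's DKZ bases: `u_{x,k} = d^{-1/2} ∑_j exp(-2πi j (k + α_x)/d) |j⟩`, `α = (1/2, 0)`. -/
noncomputable def dkzA (d : ℕ) : Fin 2 → Fin d → (Fin d → ℂ) :=
  fun x k j => (((Real.sqrt d)⁻¹ : ℝ) : ℂ) *
    Complex.exp (-(2 * Real.pi * Complex.I * (j : ℕ) * ((k : ℕ) + ((![1 / 2, 0] x : ℝ) : ℂ)) / d))

/-- Bob's DKZ bases: `w_{y,l} = d^{-1/2} ∑_j exp(2πi j (l - β_y)/d) |j⟩`, `β = (-1/4, 1/4)`. -/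
noncomputable def dkzB (d : ℕ) : Fin 2 → Fin d → (Fin d → ℂ) :=
  fun y l j => (((Real.sqrt d)⁻¹ : ℝ) : ℂ) *
    Complex.exp (2 * Real.pi * Complex.I * (j : ℕ) * ((l : ℕ) - ((![-1 / 4, 1 / 4] y : ℝ) : ℂ)) / d)

end Pool.Agent.helper2.DKZ
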