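import Pool.Agent.helper2.DKZ.Models

set_option autoImplicit false

open scoped Matrix Kronecker ComplexConjugate BigOperators
open Matrix

namespace Pool.Agent.helper2.DKZ

variable {d : ℕ}

lemma norm_exp_sub_one_sq (θ : ℝ) : ‖Complex.exp (θ * Complex.I) - 1‖ ^ 2 = 2 - 2 * Real.cos θ := by
  rw [← Complex.normSq_eq_norm_sq, Complex.normSq_apply]
  simp only [Complex.sub_re, Complex.sub_im, Complex.one_re, Complex.one_im,
    Complex.exp_ofReal_mul_I_re, Complex.exp_ofReal_mul_I_im]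
  nlinarith [Real.sin_sq_add_cos_sq θ]

lemma sum_exp_pow (θ : ℝ) : ∑ j : Fin d, Complex.exp ((((j : ℕ) : ℝ) * θ : ℝ) * Complex.I)
    = ∑ j ∈ Finset.range d, Complex.exp (θ * Complex.I) ^ j := by
  rw [← Fin.sum_univ_eq_sum_range (fun j => Complex.exp (θ * Complex.I) ^ j) d]
  refine Finset.sum_congr rfl fun j _ => ?_
  rw [← Complex.exp_nat_mul]
  congr 1
  push_cast
  ring

lemma norm_sum_exp (θ : ℝ) :
    ‖∑ j : Fin d, Complex.exp ((((j : ℕ) : ℝ) * θ : ℝ) * Complex.I)‖ ^ 2 * (2 - 2 * Real.cos θ)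
      = 2 - 2 * Real.cos (d * θ) := by
  rw [sum_exp_pow, ← norm_exp_sub_one_sq, ← norm_exp_sub_one_sq, ← mul_pow, ← norm_mul,
    geom_sum_mul, ← Complex.exp_nat_mul]
  congr 4
  push_cast
  ring

lemma sum_exp_eq_zero (hd : 0 < d) (m : ℤ) (hm : ¬ (d : ℤ) ∣ m) :
    ∑ j : Fin d, Complex.exp ((((j : ℕ) : ℝ) * (2 * Real.pi * m / d) : ℝ) * Complex.I) = 0 := by
  have hd' : (d : ℝ) ≠ 0 := by positivity
  have h := norm_sum_exp (d := d) (2 * Real.pi * m / d)
  have h1 : Real.cos (d * (2 * Real.pi * m / d)) = 1 := by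
    rw [show (d : ℝ) * (2 * Real.pi * m / d) = m * (2 * Real.pi) by field_simp]
    exact Real.cos_int_mul_two_pi m
  rw [h1] at h
  have h2 : Real.cos (2 * Real.pi * m / d) ≠ 1 := by
    intro h2
    rw [Real.cos_eq_one_iff] at h2
    obtain ⟨n, hn⟩ := h2
    apply hm
    refine ⟨n, ?_⟩
    have hpi := Real.pi_pos
    have : (m : ℝ) = d * n := by
      field_simp at hn
      linarith
    exact_mod_cast this
  have h3 : (2 - 2 * Real.cos (2 * Real.pi * m / d)) ≠ 0 := by
    intro h4; apply h2; linarith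
  have h4 : ‖∑ j : Fin d, Complex.exp ((((j : ℕ) : ℝ) * (2 * Real.pi * m / d) : ℝ) *
      Complex.I)‖ ^ 2 = 0 := by
    have h5 : ‖∑ j : Fin d, Complex.exp ((((j : ℕ) : ℝ) * (2 * Real.pi * m / d) : ℝ) *
      Complex.I)‖ ^ 2 * (2 - 2 * Real.cos (2 * Real.pi * m / d)) = 0 := by rw [h]; ring
    exact (mul_eq_zero.mp h5).resolve_right h3
  simpa using h4

lemma sqrt_inv_mul (hd : 0 < d) : (((Real.sqrt d)⁻¹ : ℝ) : ℂ) * (((Real.sqrt d)⁻¹ : ℝ) : ℂ)
    = (((d : ℝ)⁻¹ : ℝ) : ℂ) := by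
  rw [← Complex.ofReal_mul, ← mul_inv, Real.mul_self_sqrt (by positivity)]

lemma dvd_sub_fin (a a' : Fin d) (h : (d : ℤ) ∣ ((a : ℕ) : ℤ) - ((a' : ℕ) : ℤ)) : a = a' := by
  have h1 := Int.emod_emod_of_dvd
  have ha := a.isLt
  have ha' := a'.isLt
  obtain ⟨k, hk⟩ := h
  have hk0 : k = 0 := by
    by_contra hne
    rcases lt_or_gt_of_ne hne with h | h
    · have : (d : ℤ) * k ≤ (d : ℤ) * (-1) := by
        apply mul_le_mul_of_nonneg_left <;> omega
      omega
    · have : (d : ℤ) * 1 ≤ (d : ℤ) * k := by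
        apply mul_le_mul_of_nonneg_left <;> omega
      omega
  rw [hk0, mul_zero] at hk
  exact Fin.ext (by omega)

lemma isMeas_dkzA (hd : 0 < d) : IsMeas (dkzA d) := by
  intro x a a'
  have hd' : (d : ℂ) ≠ 0 := by exact_mod_cast hd.ne'
  have key : star (dkzA d x a) ⬝ᵥ dkzA d x a' = (((d : ℝ)⁻¹ : ℝ) : ℂ) *
      ∑ j : Fin d, Complex.exp ((((j : ℕ) : ℝ) * (2 * Real.pi *
        ((((a : ℕ) : ℤ) - ((a' : ℕ) : ℤ) : ℤ) : ℝ) / d) : ℝ) * Complex.I) := by
    simp only [dotProduct, Pi.star_apply, dkzA, star_mul', Complex.star_def, Complex.conj_ofReal,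
      ← Complex.exp_conj, Finset.mul_sum]
    refine Finset.sum_congr rfl fun j _ => ?_
    rw [mul_mul_mul_comm, sqrt_inv_mul hd, ← Complex.exp_add]
    congr 2
    simp only [map_neg, map_div₀, map_mul, map_add, Complex.conj_ofReal, Complex.conj_I, map_natCast,
      map_ofNat]
    push_cast
    field_simp
    ring
  rw [key]
  by_cases h : a = a'
  · subst h
    simp [hd']
  · rw [if_neg h, sum_exp_eq_zero hd _ (fun hdvd => h (dvd_sub_fin a a' hdvd)), mul_zero]

lemma isMeas_dkzB (hd : 0 < d) : IsMeas (dkzB d) := by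
  intro x a a'
  have hd' : (d : ℂ) ≠ 0 := by exact_mod_cast hd.ne'
  have key : star (dkzB d x a) ⬝ᵥ dkzB d x a' = (((d : ℝ)⁻¹ : ℝ) : ℂ) *
      ∑ j : Fin d, Complex.exp ((((j : ℕ) : ℝ) * (2 * Real.pi *
        ((((a' : ℕ) : ℤ) - ((a : ℕ) : ℤ) : ℤ) : ℝ) / d) : ℝ) * Complex.I) := by
    simp only [dotProduct, Pi.star_apply, dkzB, star_mul', Complex.star_def, Complex.conj_ofReal,
      ← Complex.exp_conj, Finset.mul_sum]
    refine Finset.sum_congr rfl fun j _ => ?_
    rw [mul_mul_mul_comm, sqrt_inv_mul hd, ← Complex.exp_add]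
    congr 2
    simp only [map_neg, map_div₀, map_mul, map_sub, Complex.conj_ofReal, Complex.conj_I, map_natCast,
      map_ofNat]
    push_cast
    field_simp
    ring
  rw [key]
  by_cases h : a = a'
  · subst h
    simp [hd']
  · rw [if_neg h, sum_exp_eq_zero hd _ (fun hdvd => h (dvd_sub_fin a' a hdvd).symm), mul_zero]

/-- the total phase shift `γ_{xy} = α_x + β_y` -/
noncomputable def gam (x y : Fin 2) : ℝ := (![1 / 2, 0] x : ℝ) + (![-1 / 4, 1 / 4] y : ℝ)

lemma ov_dkz (hd : 0 < d) (x y : Fin 2) (a b : Fin d) :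
    ov (dkzA d) (dkzB d) x y a b = (((d : ℝ)⁻¹ : ℝ) : ℂ) *
      ∑ j : Fin d, Complex.exp ((((j : ℕ) : ℝ) *
        (-(2 * Real.pi * (((a : ℕ) : ℝ) - ((b : ℕ) : ℝ) + gam x y) / d)) : ℝ) * Complex.I) := by
  have hd' : (d : ℂ) ≠ 0 := by exact_mod_cast hd.ne'
  simp only [ov, dkzA, dkzB, Finset.mul_sum]
  refine Finset.sum_congr rfl fun j _ => ?_
  rw [mul_mul_mul_comm, sqrt_inv_mul hd, ← Complex.exp_add]
  congr 2
  simp only [gam]
  push_cast
  field_simp
  ring

lemma cos_gam (x y : Fin 2) (n : ℤ) : Real.cos (2 * Real.pi * (n + gam x y)) = 0 := by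
  rw [Real.cos_eq_zero_iff]
  fin_cases x <;> fin_cases y
  · exact ⟨2 * n, by simp [gam]; ring⟩
  · exact ⟨2 * n + 1, by simp [gam]; ring⟩
  · exact ⟨2 * n - 1, by simp [gam]; ring⟩
  · exact ⟨2 * n, by simp [gam]; ring⟩

lemma ov_dkz_lower (hd : 0 < d) (x y : Fin 2) (a b : Fin d) (t : ℝ) (m : ℤ)
    (h : ((a : ℕ) : ℝ) - ((b : ℕ) : ℝ) + gam x y = t + d * m) :
    2 ≤ ‖ov (dkzA d) (dkzB d) x y a b‖ ^ 2 * (2 * Real.pi * t) ^ 2 := by
  have hd' : (0 : ℝ) < d := by positivity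
  rw [ov_dkz hd, norm_mul, Complex.norm_real, mul_pow]
  have h1 := norm_sum_exp (d := d) (-(2 * Real.pi * (((a : ℕ) : ℝ) - ((b : ℕ) : ℝ) + gam x y) / d))
  have h2 : Real.cos (d * (-(2 * Real.pi * (((a : ℕ) : ℝ) - ((b : ℕ) : ℝ) + gam x y) / d))) = 0 := by
    rw [show (d : ℝ) * (-(2 * Real.pi * (((a : ℕ) : ℝ) - ((b : ℕ) : ℝ) + gam x y) / d))
      = -(2 * Real.pi * ((((a : ℕ) : ℤ) - ((b : ℕ) : ℤ) : ℤ) + gam x y)) by
        push_cast; field_simp]
    rw [Real.cos_neg]
    exact cos_gam x y _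
  have h3 : 2 - 2 * Real.cos (-(2 * Real.pi * (((a : ℕ) : ℝ) - ((b : ℕ) : ℝ) + gam x y) / d))
      ≤ (2 * Real.pi * t / d) ^ 2 := by
    rw [Real.cos_neg, h, show 2 * Real.pi * (t + d * m) / d = 2 * Real.pi * t / d +
      m * (2 * Real.pi) by field_simp, Real.cos_add_int_mul_two_pi]
    have := Real.one_sub_sq_div_two_le_cos (x := 2 * Real.pi * t / d)
    linarith
  rw [h2] at h1
  set S := ‖∑ j : Fin d, Complex.exp ((((j : ℕ) : ℝ) *
        (-(2 * Real.pi * (((a : ℕ) : ℝ) - ((b : ℕ) : ℝ) + gam x y) / d)) : ℝ) * Complex.I)‖ ^ 2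
    with hS
  have hS0 : 0 ≤ S := by positivity
  have h4 : 2 ≤ S * (2 * Real.pi * t / d) ^ 2 := by
    calc (2 : ℝ) = 2 - 2 * 0 := by norm_num
      _ = _ := h1.symm
      _ ≤ _ := mul_le_mul_of_nonneg_left h3 hS0
  have h5 : ‖(d : ℝ)⁻¹‖ ^ 2 = ((d : ℝ)⁻¹) ^ 2 := by rw [Real.norm_eq_abs, sq_abs]
  rw [h5]
  calc (2 : ℝ) ≤ S * (2 * Real.pi * t / d) ^ 2 := h4
    _ = ((d : ℝ)⁻¹) ^ 2 * S * (2 * Real.pi * t) ^ 2 := by field_simp

/-- the covariant deterministic mixture with offsets `oA`, `oB` -/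
noncomputable def shf [NeZero d] (oA oB : Fin 2 → Fin d) : Behaviour d :=
  fun x y a b => if a - oA x = b - oB y then 1 / (d : ℝ) else 0

lemma shf_row [NeZero d] (oA oB : Fin 2 → Fin d) (x y : Fin 2) (a : Fin d) :
    ∑ b, shf oA oB x y a b = 1 / d := by
  have : ∀ b : Fin d, shf oA oB x y a b = if b = a - oA x + oB y then 1 / (d : ℝ) else 0 := by
    intro b
    unfold shf
    have : (a - oA x = b - oB y) ↔ (b = a - oA x + oB y) := by
      constructor
      · intro h; rw [h]; simp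
      · intro h; rw [h]; simp
    simp only [this]
  simp_rw [this]
  simp

lemma shf_col [NeZero d] (oA oB : Fin 2 → Fin d) (x y : Fin 2) (b : Fin d) :
    ∑ a, shf oA oB x y a b = 1 / d := by
  have : ∀ a : Fin d, shf oA oB x y a b = if a = b - oB y + oA x then 1 / (d : ℝ) else 0 := by
    intro a
    unfold shf
    have : (a - oA x = b - oB y) ↔ (a = b - oB y + oA x) := by
      constructor
      · intro h; rw [← h]; simp
      · intro h; rw [h]; simp
    simp only [this]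
  simp_rw [this]
  simp

/-- From the equality in `Fin d` to an integer congruence. -/
lemma cong_of_shift [NeZero d] {a b p q : Fin d} (h : a - p = b - q) :
    ∃ m : ℤ, ((a : ℕ) : ℝ) - ((b : ℕ) : ℝ) = ((p : ℕ) : ℝ) - ((q : ℕ) : ℝ) + d * m := by
  have h1 : a + q = b + p := sub_eq_sub_iff_add_eq_add.mp h
  have h2 := congrArg Fin.val h1
  rw [Fin.val_add, Fin.val_add] at h2
  have h3 : ((a : ℕ) + (q : ℕ) : ℤ) ≡ ((b : ℕ) + (p : ℕ) : ℤ) [ZMOD d] := by
    have : ((a : ℕ) + (q : ℕ)) ≡ ((b : ℕ) + (p : ℕ)) [MOD d] := h2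
    exact_mod_cast (Int.natCast_modEq_iff.mpr this)
  obtain ⟨m, hm⟩ := h3.symm.dvd
  refine ⟨m, ?_⟩
  have h4 : (((a : ℕ) : ℝ) + ((q : ℕ) : ℝ)) - (((b : ℕ) : ℝ) + ((p : ℕ) : ℝ)) = d * m := by
    exact_mod_cast hm
  linarith

lemma pi_sq_lt : Real.pi ^ 2 < 10 := by
  have h1 := Real.pi_lt_d2
  have h2 := Real.pi_pos
  nlinarith

lemma big_of_quarter {X t : ℝ} (ht : t = 1 / 4 ∨ t = -1 / 4)
    (h : 2 ≤ X * (2 * Real.pi * t) ^ 2) : 4 ≤ 12 * X := by
  have hp := pi_sq_lt
  have : (2 * Real.pi * t) ^ 2 = Real.pi ^ 2 / 4 := by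
    rcases ht with rfl | rfl <;> ring
  rw [this] at h
  nlinarith

lemma big_of_three_quarter {X t : ℝ} (ht : t = 3 / 4 ∨ t = -3 / 4)
    (h : 2 ≤ X * (2 * Real.pi * t) ^ 2) : 1 ≤ 12 * X := by
  have hp := pi_sq_lt
  have : (2 * Real.pi * t) ^ 2 = 9 * Real.pi ^ 2 / 4 := by
    rcases ht with rfl | rfl <;> ring
  rw [this] at h
  nlinarith

/-- `1/4` of the sum of the four covariant deterministic mixtures -/
noncomputable def cfour [NeZero d] : Behaviour d := fun x y a b =>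
  (shf ![0, 1] ![1, 1] x y a b + shf ![0, 0] ![0, 0] x y a b + shf ![0, 1] ![0, 1] x y a b
    + shf ![0, 0] ![0, 1] x y a b) / 4

lemma isLocal_cfour [NeZero d] : IsLocal (cfour (d := d)) := by
  have h := ((isLocal_shift (d := d) ![0, 1] ![1, 1]).combo (isLocal_shift ![0, 0] ![0, 0])
    (s := 1 / 2) (t := 1 / 2) (by norm_num) (by norm_num) (by norm_num)).combo
    ((isLocal_shift (d := d) ![0, 1] ![0, 1]).combo (isLocal_shift ![0, 0] ![0, 1])
    (s := 1 / 2) (t := 1 / 2) (by norm_num) (by norm_num) (by norm_num))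
    (s := 1 / 2) (t := 1 / 2) (by norm_num) (by norm_num) (by norm_num)
  convert h using 1
  funext x y a b
  simp only [cfour, shf, Pi.add_apply, Pi.smul_apply, smul_eq_mul]
  ring

lemma cfour_row [NeZero d] (x y : Fin 2) (a : Fin d) : ∑ b, cfour x y a b = 1 / d := by
  simp only [cfour]
  rw [← Finset.sum_div, Finset.sum_add_distrib, Finset.sum_add_distrib, Finset.sum_add_distrib,
    shf_row, shf_row, shf_row, shf_row]
  ring

lemma cfour_col [NeZero d] (x y : Fin 2) (b : Fin d) : ∑ a, cfour x y a b = 1 / d := by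
  simp only [cfour]
  rw [← Finset.sum_div, Finset.sum_add_distrib, Finset.sum_add_distrib, Finset.sum_add_distrib,
    shf_col, shf_col, shf_col, shf_col]
  ring

lemma shf_eq [NeZero d] (oA oB : Fin 2 → Fin d) (x y : Fin 2) (a b : Fin d) :
    shf oA oB x y a b = (if a - oA x = b - oB y then 1 else 0) / (d : ℝ) := by
  unfold shf; split_ifs <;> simp

lemma shf_cases [NeZero d] (hd : 2 ≤ d) (oA oB : Fin 2 → Fin d) (x y : Fin 2) (a b : Fin d)
    (h : a - oA x = b - oB y) (t : ℝ)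
    (ht : t = ((oA x : ℕ) : ℝ) - ((oB y : ℕ) : ℝ) + gam x y) :
    2 ≤ ‖ov (dkzA d) (dkzB d) x y a b‖ ^ 2 * (2 * Real.pi * t) ^ 2 := by
  obtain ⟨m, hm⟩ := cong_of_shift h
  refine ov_dkz_lower (by omega) x y a b t m ?_
  rw [hm, ht]; ring

lemma indicator_bound {X : ℝ} (hX : 0 ≤ X) (c1 c2 c3 c4 : Prop) [Decidable c1] [Decidable c2]
    [Decidable c3] [Decidable c4] (h1 : c1 → 1 ≤ 12 * X) (h2 : c2 → 4 ≤ 12 * X)
    (h3 : c3 → 4 ≤ 12 * X) (h4 : c4 → 4 ≤ 12 * X) :
    (if c1 then (1 : ℝ) else 0) + (if c2 then 1 else 0) + (if c3 then 1 else 0)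
      + (if c4 then 1 else 0) ≤ 12 * X := by
  by_cases k2 : c2
  · have := h2 k2
    split_ifs <;> linarith
  by_cases k3 : c3
  · have := h3 k3
    split_ifs <;> linarith
  by_cases k4 : c4
  · have := h4 k4
    split_ifs <;> linarith
  by_cases k1 : c1
  · have := h1 k1
    simp [k1, k2, k3, k4, this]
  · simp [k1, k2, k3, k4, hX]

lemma cfour_le [NeZero d] (hd : 2 ≤ d) (x y : Fin 2) (a b : Fin d) :
    cfour x y a b ≤ 3 * (‖ov (dkzA d) (dkzB d) x y a b‖ ^ 2 / d) := by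
  have hd0 : (0 : ℝ) < d := by positivity
  have one_val : 1 % d = 1 := Nat.mod_eq_of_lt (by omega)
  set X := ‖ov (dkzA d) (dkzB d) x y a b‖ ^ 2 with hXdef
  have hX : 0 ≤ X := by positivity
  have S := fun (oA oB : Fin 2 → Fin d) (h : a - oA x = b - oB y) =>
    shf_cases hd oA oB x y a b h _ rfl
  have main : (if a - (![0, 1] : Fin 2 → Fin d) x = b - (![1, 1] : Fin 2 → Fin d) y then (1 : ℝ)
        else 0)
      + (if a - (![0, 0] : Fin 2 → Fin d) x = b - (![0, 0] : Fin 2 → Fin d) y then 1 else 0)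
      + (if a - (![0, 1] : Fin 2 → Fin d) x = b - (![0, 1] : Fin 2 → Fin d) y then 1 else 0)
      + (if a - (![0, 0] : Fin 2 → Fin d) x = b - (![0, 1] : Fin 2 → Fin d) y then 1 else 0)
      ≤ 12 * X := by
    have s1 := S ![0, 1] ![1, 1]
    have s2 := S ![0, 0] ![0, 0]
    have s3 := S ![0, 1] ![0, 1]
    have s4 := S ![0, 0] ![0, 1]
    clear S
    fin_cases x <;> fin_cases y
    · -- (0,0): special is the first
      refine indicator_bound hX _ _ _ _ (fun h => big_of_three_quarter ?_ (s1 h))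
        (fun h => big_of_quarter ?_ (s2 h)) (fun h => big_of_quarter ?_ (s3 h))
        (fun h => big_of_quarter ?_ (s4 h))
      · right; simp [one_val, gam]; norm_num
      · left; simp [gam]; norm_num
      · left; simp [gam]; norm_num
      · left; simp [gam]; norm_num
    · -- (0,1): special is the second
      rw [show ∀ p q r s : ℝ, p + q + r + s = q + p + r + s from fun p q r s => by ring]
      refine indicator_bound hX _ _ _ _ (fun h => big_of_three_quarter ?_ (s2 h))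
        (fun h => big_of_quarter ?_ (s1 h)) (fun h => big_of_quarter ?_ (s3 h))
        (fun h => big_of_quarter ?_ (s4 h))
      · left; simp [gam]; norm_num
      · right; simp [one_val, gam]; norm_num
      · right; simp [one_val, gam]; norm_num
      · right; simp [one_val, gam]; norm_num
    · -- (1,0): special is the third
      rw [show ∀ p q r s : ℝ, p + q + r + s = r + q + p + s from fun p q r s => by ring]
      refine indicator_bound hX _ _ _ _ (fun h => big_of_three_quarter ?_ (s3 h))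
        (fun h => big_of_quarter ?_ (s2 h)) (fun h => big_of_quarter ?_ (s1 h))
        (fun h => big_of_quarter ?_ (s4 h))
      · left; simp [one_val, gam]; norm_num
      · right; simp [gam]
      · right; simp [one_val, gam]
      · right; simp [gam]
    · -- (1,1): special is the fourth
      rw [show ∀ p q r s : ℝ, p + q + r + s = s + q + r + p from fun p q r s => by ring]
      refine indicator_bound hX _ _ _ _ (fun h => big_of_three_quarter ?_ (s4 h))
        (fun h => big_of_quarter ?_ (s2 h)) (fun h => big_of_quarter ?_ (s3 h))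
        (fun h => big_of_quarter ?_ (s1 h))
      · right; simp [one_val, gam]; norm_num
      · left; simp [gam]
      · left; simp [one_val, gam]
      · left; simp [one_val, gam]
  simp only [cfour, shf_eq]
  have e : ∀ p q r s : ℝ, (p / (d : ℝ) + q / d + r / d + s / d) / 4 = (p + q + r + s) / (4 * d) := by
    intro p q r s; field_simp
  rw [e, div_le_iff₀ (by positivity)]
  calc _ ≤ 12 * X := main
    _ = _ := by field_simp; ring

/-- The DKZ behaviour at visibility `3/5` is local. -/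
theorem isLocal_dkz (hd : 2 ≤ d) : IsLocal (behaviour (3 / 5) (dkzA d) (dkzB d)) := by
  have : NeZero d := ⟨by omega⟩
  have hd0 : 0 < d := by omega
  have hd' : (d : ℝ) ≠ 0 := by positivity
  have hA := isMeas_dkzA hd0
  have hB := isMeas_dkzB hd0
  have hJ : ∀ x y, Joint (fun a b : Fin d => (5 / 2 : ℝ) *
      (3 / 5 * (‖ov (dkzA d) (dkzB d) x y a b‖ ^ 2 / d) - 1 / 5 * cfour x y a b)) := by
    intro x y
    refine ⟨fun a b => ?_, fun a => ?_, fun b => ?_⟩
    · have := cfour_le hd x y a b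
      linarith
    · rw [← Finset.mul_sum, Finset.sum_sub_distrib, ← Finset.mul_sum, ← Finset.mul_sum,
        ← Finset.sum_div, sum_ov_right hA hB, cfour_row]
      ring
    · rw [← Finset.mul_sum, Finset.sum_sub_distrib, ← Finset.mul_sum, ← Finset.mul_sum,
        ← Finset.sum_div, sum_ov_left hA hB, cfour_col]
      ring
  have h := (isLocal_cfour (d := d)).combo
    ((isLocal_pair (hJ 0 0) (hJ 1 1) hd0 id (Or.inl rfl)).combo
    (isLocal_pair (hJ 0 1) (hJ 1 0) hd0 (fun x => 1 - x) (Or.inr rfl))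
    (s := 1 / 2) (t := 1 / 2) (by norm_num) (by norm_num) (by norm_num))
    (s := 1 / 5) (t := 4 / 5) (by norm_num) (by norm_num) (by norm_num)
  convert h using 1
  funext x y a b
  rw [behaviour_eq hA hB]
  simp only [Pi.add_apply, Pi.smul_apply, smul_eq_mul]
  fin_cases x <;> fin_cases y <;> simp <;> ring

end Pool.Agent.helper2.DKZ
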