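import Pool.Agent.helper2.DKZ.Models
import Pool.Agent.helper2.DKZ.Chernoff

set_option autoImplicit false

open scoped BigOperators
open Matrix

namespace Pool.Agent.helper2.DKZ

/-- Alice's qubit vectors (`s` = outcome, `β` = coordinate) -/
noncomputable def qA (x : Fin 2) (s β : Bool) : ℝ :=
  if x = 0 then (if s = β then 1 else 0) else (if s = true ∧ β = true then -(√2 / 2) else √2 / 2)

/-- `cos (π/8)` -/
noncomputable def cc : ℝ := Real.cos (Real.pi / 8)

/-- `sin (π/8)` -/
noncomputable def ss : ℝ := Real.sin (Real.pi / 8)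

/-- Bob's qubit vectors -/
noncomputable def qB (y : Fin 2) (s β : Bool) : ℝ :=
  if s = β then cc else
    (if y = 0 then (if s = true then -ss else ss) else (if s = true then ss else -ss))

/-- loss bit of the CHSH game -/
def loss (x y : Fin 2) (s s' : Bool) : Bool := xor (xor s s') (decide (x = 1 ∧ y = 1))

lemma c_sq : cc ^ 2 = 1 / 2 + √2 / 4 := by
  rw [cc, Real.cos_sq, show 2 * (Real.pi / 8) = Real.pi / 4 by ring, Real.cos_pi_div_four]
  ring

lemma s_sq : ss ^ 2 = 1 / 2 - √2 / 4 := by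
  rw [ss, Real.sin_sq, ← cc, c_sq]; ring

lemma cs_mul : cc * ss = √2 / 4 := by
  unfold cc ss
  have h := Real.sin_two_mul (Real.pi / 8)
  rw [show 2 * (Real.pi / 8) = Real.pi / 4 by ring, Real.sin_pi_div_four] at h
  linarith

lemma sq2 : √2 * √2 = 2 := Real.mul_self_sqrt (by norm_num)

lemma qA_orth (x : Fin 2) (s s' : Bool) :
    ∑ β, qA x s β * qA x s' β = if s = s' then 1 else 0 := by
  have h := sq2
  fin_cases x <;> cases s <;> cases s' <;> simp [qA] <;> linarith

lemma qB_orth (y : Fin 2) (s s' : Bool) :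
    ∑ β, qB y s β * qB y s' β = if s = s' then 1 else 0 := by
  have h1 := c_sq
  have h2 := s_sq
  fin_cases y <;> cases s <;> cases s' <;> simp [qB] <;> nlinarith

/-- the loss probability `(2 - √2)/4` -/
noncomputable def p0 : ℝ := 1 / 2 - √2 / 4

lemma p0_nonneg : 0 ≤ p0 := by rw [p0, ← s_sq]; positivity

lemma p0_le_one : p0 ≤ 1 := by
  unfold p0
  have := Real.sqrt_nonneg 2
  linarith

lemma overlap_sq (x y : Fin 2) (s s' : Bool) :
    (∑ β, qA x s β * qB y s' β) ^ 2 = pr p0 (loss x y s s') := by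
  have h1 := c_sq
  have h2 := s_sq
  have h3 := cs_mul
  have h4 := sq2
  have e1 : (√2 / 2 * cc + √2 / 2 * ss) ^ 2 = 1 / 2 + √2 / 4 := by
    calc _ = (√2 * √2) / 4 * (cc ^ 2 + ss ^ 2 + 2 * (cc * ss)) := by ring
      _ = _ := by rw [h1, h2, h3, h4]; ring
  have e2 : (√2 / 2 * cc - √2 / 2 * ss) ^ 2 = 1 / 2 - √2 / 4 := by
    calc _ = (√2 * √2) / 4 * (cc ^ 2 + ss ^ 2 - 2 * (cc * ss)) := by ring
      _ = _ := by rw [h1, h2, h3, h4]; ring
  fin_cases x <;> fin_cases y <;> cases s <;> cases s' <;>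
    simp [qA, qB, loss, pr, p0] <;> nlinarith

/-- index type: `q` blocks of `n` qubits and `r` further basis vectors -/
abbrev Idx (q n r : ℕ) : Type := (Fin q × (Fin n → Bool)) ⊕ Fin r

/-- block-tensor kernel -/
noncomputable def ker {q n r : ℕ} (f : Bool → Bool → ℝ) : Idx q n r → Idx q n r → ℝ
  | Sum.inl a, Sum.inl b => if a.1 = b.1 then ∏ i, f (a.2 i) (b.2 i) else 0
  | Sum.inr k, Sum.inr l => if k = l then 1 else 0
  | Sum.inl _, Sum.inr _ => 0
  | Sum.inr _, Sum.inl _ => 0

lemma ker_comp {q n r : ℕ} (f g : Bool → Bool → ℝ) (a b : Idx q n r) :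
    ∑ j, ker f a j * ker g b j = ker (fun s s' => ∑ β, f s β * g s' β) a b := by
  rcases a with ⟨c, s⟩ | k <;> rcases b with ⟨c', s'⟩ | l
  · simp only [Fintype.sum_sum_type, ker, Fintype.sum_prod_type, mul_zero, Finset.sum_const_zero,
      add_zero]
    have h1 : ∀ c'' : Fin q, ∑ t : Fin n → Bool, (if c = c'' then ∏ i, f (s i) (t i) else 0) *
        (if c' = c'' then ∏ i, g (s' i) (t i) else 0)
        = if c = c'' then (if c' = c'' then ∏ i, ∑ β, f (s i) β * g (s' i) β else 0) else 0 := by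
      intro c''
      by_cases h1 : c = c''
      · by_cases h2 : c' = c''
        · simp only [h1, h2, if_true]
          rw [← sum_prod_bool (fun i β => f (s i) β * g (s' i) β)]
          exact Finset.sum_congr rfl fun t _ => (Finset.prod_mul_distrib).symm
        · simp [h1, h2]
      · simp [h1]
    simp_rw [h1]
    rw [Finset.sum_ite_eq]
    simp [eq_comm]
  · simp [ker]
  · simp [ker]
  · simp only [Fintype.sum_sum_type, ker, Fintype.sum_prod_type, mul_zero, Finset.sum_const_zero,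
      zero_add]
    simp [eq_comm]

lemma ker_delta {q n r : ℕ} (a b : Idx q n r) :
    ker (fun s s' : Bool => if s = s' then 1 else 0) a b = if a = b then 1 else 0 := by
  rcases a with ⟨c, s⟩ | k <;> rcases b with ⟨c', s'⟩ | l
  · simp only [ker, Sum.inl.injEq, Prod.mk.injEq]
    by_cases h1 : c = c'
    · by_cases h2 : s = s'
      · subst h1 h2; simp
      · obtain ⟨i, hi⟩ := Function.ne_iff.mp h2
        rw [if_pos h1, if_neg (fun h => h2 h.2)]
        exact Finset.prod_eq_zero (Finset.mem_univ i) (by rw [if_neg hi])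
    · simp [h1]
  · simp [ker]
  · simp [ker]
  · simp [ker]

lemma ker_sq {q n r : ℕ} (f : Bool → Bool → ℝ) (a b : Idx q n r) :
    ker f a b ^ 2 = ker (fun s s' => f s s' ^ 2) a b := by
  rcases a with ⟨c, s⟩ | k <;> rcases b with ⟨c', s'⟩ | l
  · simp only [ker]
    split_ifs
    · rw [Finset.prod_pow]
    · simp
  · simp [ker]
  · simp [ker]
  · simp only [ker]
    split_ifs <;> simp

/-- the Bell functional -/
noncomputable def bell {q n r : ℕ} (x y : Fin 2) : Idx q n r → Idx q n r → ℝ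
  | Sum.inl a, Sum.inl b =>
      if a.1 = b.1 then gthr n (wt fun i => loss x y (a.2 i) (b.2 i)) else 0
  | Sum.inr _, Sum.inr _ => 0
  | Sum.inl _, Sum.inr _ => 0
  | Sum.inr _, Sum.inl _ => 0

lemma bell_le_one {q n r : ℕ} (x y : Fin 2) (a b : Idx q n r) : bell x y a b ≤ 1 := by
  rcases a with ⟨c, s⟩ | k <;> rcases b with ⟨c', s'⟩ | l
  · simp only [bell]
    split_ifs
    · exact gthr_le_one _ _
    · norm_num
  all_goals simp [bell]

lemma wt_four {n : ℕ} (a1 a2 b1 b2 : Fin n → Bool) :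
    n ≤ wt (fun i => loss 0 0 (a1 i) (b1 i)) + wt (fun i => loss 0 1 (a1 i) (b2 i))
      + wt (fun i => loss 1 0 (a2 i) (b1 i)) + wt (fun i => loss 1 1 (a2 i) (b2 i)) := by
  simp only [wt, ← Finset.sum_add_distrib]
  have key : ∀ p q r s : Bool, 1 ≤ (if loss 0 0 p r = true then 1 else 0) +
      (if loss 0 1 p s = true then 1 else 0) + (if loss 1 0 q r = true then 1 else 0) +
      (if loss 1 1 q s = true then 1 else 0) := by decide
  calc n = ∑ _i : Fin n, 1 := by simp
    _ ≤ _ := Finset.sum_le_sum fun i _ => key (a1 i) (a2 i) (b1 i) (b2 i)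

lemma bell_local {q n r : ℕ} (a1 a2 b1 b2 : Idx q n r) :
    bell 0 0 a1 b1 + bell 0 1 a1 b2 + (bell 1 0 a2 b1 + bell 1 1 a2 b2) ≤ 2 := by
  have h11 := bell_le_one 0 0 a1 b1
  have h12 := bell_le_one 0 1 a1 b2
  have h21 := bell_le_one 1 0 a2 b1
  have h22 := bell_le_one 1 1 a2 b2
  rcases a1 with ⟨c1, s1⟩ | k1
  swap
  · have e1 : bell 0 0 (Sum.inr k1) b1 = 0 := by cases b1 <;> rfl
    have e2 : bell 0 1 (Sum.inr k1) b2 = 0 := by cases b2 <;> rfl
    rw [e1, e2]; linarith
  rcases a2 with ⟨c2, s2⟩ | k2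
  swap
  · have e1 : bell 1 0 (Sum.inr k2) b1 = 0 := by cases b1 <;> rfl
    have e2 : bell 1 1 (Sum.inr k2) b2 = 0 := by cases b2 <;> rfl
    rw [e1, e2]; linarith
  rcases b1 with ⟨d1, t1⟩ | l1
  swap
  · have e1 : bell 0 0 (Sum.inl (c1, s1)) (Sum.inr l1 : Idx q n r) = 0 := rfl
    have e2 : bell 1 0 (Sum.inl (c2, s2)) (Sum.inr l1 : Idx q n r) = 0 := rfl
    rw [e1, e2]; linarith
  rcases b2 with ⟨d2, t2⟩ | l2
  swap
  · have e1 : bell 0 1 (Sum.inl (c1, s1)) (Sum.inr l2 : Idx q n r) = 0 := rfl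
    have e2 : bell 1 1 (Sum.inl (c2, s2)) (Sum.inr l2 : Idx q n r) = 0 := rfl
    rw [e1, e2]; linarith
  have hw := gthr_four (wt_four s1 s2 t1 t2)
  simp only [bell] at *
  by_cases h1 : c1 = d1
  · by_cases h2 : c1 = d2
    · by_cases h3 : c2 = d1
      · have h4 : c2 = d2 := by rw [h3, ← h1, h2]
        rw [if_pos h1, if_pos h2, if_pos h3, if_pos h4]
        linarith
      · have h4 : c2 ≠ d2 := by
          intro h4; apply h3; rw [h4, ← h2, h1]
        rw [if_neg h3, if_neg h4]; linarith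
    · by_cases h3 : c2 = d1
      · have h4 : c2 ≠ d2 := by
          intro h4; apply h2; rw [← h4, h3, h1]
        rw [if_neg h2, if_neg h4]; linarith
      · rw [if_neg h2, if_neg h3]; linarith
  · by_cases h2 : c1 = d2
    · by_cases h3 : c2 = d1
      · have h4 : c2 ≠ d2 := by
          intro h4; apply h1; rw [h2, ← h4, h3]
        rw [if_neg h1, if_neg h4]; linarith
      · rw [if_neg h1, if_neg h3]; linarith
    · rw [if_neg h1, if_neg h2]; linarith

lemma sum_loss {n : ℕ} (x y : Fin 2) (s : Fin n → Bool) (F : (Fin n → Bool) → ℝ) :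
    ∑ s' : Fin n → Bool, F (fun i => loss x y (s i) (s' i)) = ∑ e, F e := by
  have hinv : Function.Involutive (fun (s' : Fin n → Bool) => fun i => loss x y (s i) (s' i)) := by
    intro s'
    funext i
    simp only [loss]
    cases s i <;> cases s' i <;> cases (decide (x = 1 ∧ y = 1)) <;> rfl
  exact Equiv.sum_comp hinv.toPerm F

lemma sum_bell {q n r : ℕ} (x y : Fin 2) :
    ∑ a : Idx q n r, ∑ b : Idx q n r, bell x y a b
      = q * 2 ^ n * ∑ e : Fin n → Bool, gthr n (wt e) := by
  simp only [Fintype.sum_sum_type, bell, Finset.sum_const_zero, add_zero, Fintype.sum_prod_type]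
  have h1 : ∀ (c : Fin q) (s : Fin n → Bool), ∑ c' : Fin q, ∑ s' : Fin n → Bool,
      (if c = c' then gthr n (wt fun i => loss x y (s i) (s' i)) else 0)
      = ∑ e : Fin n → Bool, gthr n (wt e) := by
    intro c s
    rw [Finset.sum_comm]
    simp only [Finset.sum_ite_eq, Finset.mem_univ, if_true]
    exact sum_loss x y s (fun e => gthr n (wt e))
  simp_rw [h1]
  simp
  ring

lemma sum_bell_ker {q n r : ℕ} (x y : Fin 2) (p : ℝ) :
    ∑ a : Idx q n r, ∑ b : Idx q n r, bell x y a b * ker (fun s s' => pr p (loss x y s s')) a b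
      = q * 2 ^ n * ∑ e : Fin n → Bool, (∏ i, pr p (e i)) * gthr n (wt e) := by
  simp only [Fintype.sum_sum_type, bell, ker, Finset.sum_const_zero, add_zero,
    Fintype.sum_prod_type, zero_mul]
  have h1 : ∀ (c : Fin q) (s : Fin n → Bool), ∑ c' : Fin q, ∑ s' : Fin n → Bool,
      (if c = c' then gthr n (wt fun i => loss x y (s i) (s' i)) else 0) *
      (if c = c' then ∏ i, pr p (loss x y (s i) (s' i)) else 0)
      = ∑ e : Fin n → Bool, (∏ i, pr p (e i)) * gthr n (wt e) := by
    intro c s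
    rw [Finset.sum_comm]
    have h2 : ∀ (s' : Fin n → Bool), ∑ c' : Fin q,
        (if c = c' then gthr n (wt fun i => loss x y (s i) (s' i)) else 0) *
        (if c = c' then ∏ i, pr p (loss x y (s i) (s' i)) else 0)
        = (∏ i, pr p (loss x y (s i) (s' i))) * gthr n (wt fun i => loss x y (s i) (s' i)) := by
      intro s'
      rw [Finset.sum_eq_single c]
      · simp [mul_comm]
      · intro c' _ hc; simp [Ne.symm hc]
      · intro h; exact absurd (Finset.mem_univ c) h
    simp_rw [h2]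
    exact sum_loss x y s (fun e => (∏ i, pr p (e i)) * gthr n (wt e))
  simp_rw [h1]
  simp
  ring

end Pool.Agent.helper2.DKZ
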