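import Pool.Agent.helper2.DKZ.DkzLocal
import Pool.Agent.helper2.DKZ.Product

set_option autoImplicit false

open scoped BigOperators
open Matrix

namespace Pool.Agent.helper2.DKZ

variable {d q n r : ℕ}

/-- measurement vectors transported from the block-tensor kernel -/
noncomputable def vecs (e : Fin d ≃ Idx q n r) (f : Fin 2 → Bool → Bool → ℝ) :
    Fin 2 → Fin d → (Fin d → ℂ) :=
  fun x a j => ((ker (f x) (e a) (e j) : ℝ) : ℂ)

lemma sum_vecs (e : Fin d ≃ Idx q n r) (f g : Bool → Bool → ℝ) (a b : Fin d) :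
    ∑ j, ker f (e a) (e j) * ker g (e b) (e j)
      = ker (fun s s' => ∑ β, f s β * g s' β) (e a) (e b) := by
  rw [← ker_comp, Equiv.sum_comp e (fun j => ker f (e a) j * ker g (e b) j)]

lemma isMeas_vecs (e : Fin d ≃ Idx q n r) (f : Fin 2 → Bool → Bool → ℝ)
    (hf : ∀ x s s', ∑ β, f x s β * f x s' β = if s = s' then 1 else 0) : IsMeas (vecs e f) := by
  intro x a a'
  have h := sum_vecs e (f x) (f x) a a'
  have h2 : (fun s s' => ∑ β, f x s β * f x s' β) = fun s s' : Bool => if s = s' then (1 : ℝ) else 0 := by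
    funext s s'; exact hf x s s'
  rw [h2, ker_delta] at h
  simp only [dotProduct, Pi.star_apply, vecs, Complex.star_def, Complex.conj_ofReal]
  have h3 : ∑ j, ((ker (f x) (e a) (e j) : ℝ) : ℂ) * ((ker (f x) (e a') (e j) : ℝ) : ℂ)
      = ((∑ j, ker (f x) (e a) (e j) * ker (f x) (e a') (e j) : ℝ) : ℂ) := by push_cast; rfl
  rw [h3, h]
  simp only [e.injective.eq_iff]
  split_ifs <;> simp

lemma ov_vecs (e : Fin d ≃ Idx q n r) (x y : Fin 2) (a b : Fin d) :
    ‖ov (vecs e qA) (vecs e qB) x y a b‖ ^ 2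
      = ker (fun s s' => pr p0 (loss x y s s')) (e a) (e b) := by
  have h := sum_vecs e (qA x) (qB y) a b
  have h3 : ov (vecs e qA) (vecs e qB) x y a b
      = ((∑ j, ker (qA x) (e a) (e j) * ker (qB y) (e b) (e j) : ℝ) : ℂ) := by
    simp only [ov, vecs]; push_cast; rfl
  rw [h3, h, Complex.norm_real, Real.norm_eq_abs, sq_abs, ker_sq]
  congr 1
  funext s s'
  exact overlap_sq x y s s'

/-- decay rates -/
noncomputable def k1 : ℝ := (1 - p0 + p0 * Real.exp (1 / 20)) * Real.exp (-(1 / 20 * (31 / 200)))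

/-- decay rates -/
noncomputable def k2 : ℝ :=
  (1 - 1 / 2 + 1 / 2 * Real.exp (1 / 20)) * Real.exp (-(1 / 20 * (107 / 200)))

lemma p0_lt : p0 < 1465 / 10000 := by
  unfold p0
  have h : (1.4142 : ℝ) ≤ √2 := Real.le_sqrt_of_sq_le (by norm_num)
  linarith

lemma k1_lt : k1 < 1 := by
  unfold k1
  refine kappa_lt p0_nonneg (by norm_num) (by norm_num) ?_
  have := p0_lt
  linarith

lemma k2_lt : k2 < 1 := by
  unfold k2
  exact kappa_lt (by norm_num) (by norm_num) (by norm_num) (by norm_num)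

lemma k1_nonneg : 0 ≤ k1 := kappa_nonneg p0_nonneg p0_le_one

lemma k2_nonneg : 0 ≤ k2 := kappa_nonneg (by norm_num) (by norm_num)

/-- The Bell inequality forces small visibility for the block-product measurements. -/
lemma vis_le (hq : 0 < q) (hd : d = q * 2 ^ n + r) (e : Fin d ≃ Idx q n r) {v : ℝ}
    (hv0 : 0 ≤ v) (hv1 : v ≤ 1) (hloc : IsLocal (behaviour v (vecs e qA) (vecs e qB))) :
    v ≤ 1 / 2 + 3 * k1 ^ n + 2 * k2 ^ n + r / d := by
  have hu := isMeas_vecs e qA qA_orth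
  have hw := isMeas_vecs e qB qB_orth
  have h2n : (0 : ℝ) < 2 ^ n := by positivity
  have hq' : (1 : ℝ) ≤ q := by exact_mod_cast hq
  have hdR : (d : ℝ) = q * 2 ^ n + r := by rw [hd]; push_cast; ring
  have hr : (0 : ℝ) ≤ r := by positivity
  have hd2n : (2 : ℝ) ^ n ≤ d := by rw [hdR]; nlinarith
  have hd0 : (0 : ℝ) < d := by linarith
  have hqd : (q : ℝ) * 2 ^ n ≤ d := by rw [hdR]; linarith
  -- Bell inequality
  have hb := hloc.bell_le (fun x y a b => bell x y (e a) (e b)) 2 (by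
    intro f g
    rw [Fin.sum_univ_two, Fin.sum_univ_two, Fin.sum_univ_two]
    exact bell_local _ _ _ _)
  set E1 := ∑ b : Fin n → Bool, (∏ i, pr p0 (b i)) * gthr n (wt b) with hE1
  set E2 := ∑ b : Fin n → Bool, (1 / 2 : ℝ) ^ n * gthr n (wt b) with hE2
  have hterm : ∀ x y : Fin 2, ∑ a, ∑ b, bell x y (e a) (e b) *
      behaviour v (vecs e qA) (vecs e qB) x y a b
      = v * ((q * 2 ^ n / d) * E1) + (1 - v) * ((q * 2 ^ n * 2 ^ n / d ^ 2) * E2) := by
    intro x y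
    have h1 : ∀ a b : Fin d, bell x y (e a) (e b) * behaviour v (vecs e qA) (vecs e qB) x y a b
        = v / d * (bell x y (e a) (e b) * ker (fun s s' => pr p0 (loss x y s s')) (e a) (e b))
          + (1 - v) / d ^ 2 * bell x y (e a) (e b) := by
      intro a b
      rw [behaviour_eq hu hw, ov_vecs]
      ring
    simp_rw [h1, Finset.sum_add_distrib, ← Finset.mul_sum]
    have h2 : ∑ a : Fin d, ∑ b : Fin d, bell x y (e a) (e b) *
        ker (fun s s' => pr p0 (loss x y s s')) (e a) (e b) = q * 2 ^ n * E1 := by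
      rw [← sum_bell_ker (r := r) x y p0]
      rw [← Equiv.sum_comp e (fun a => ∑ b : Idx q n r, bell x y a b *
        ker (fun s s' => pr p0 (loss x y s s')) a b)]
      refine Finset.sum_congr rfl fun a _ => ?_
      exact Equiv.sum_comp e (fun b => bell x y (e a) b *
        ker (fun s s' => pr p0 (loss x y s s')) (e a) b)
    have h3 : ∑ a : Fin d, ∑ b : Fin d, bell x y (e a) (e b) = q * 2 ^ n * (2 ^ n * E2) := by
      have : 2 ^ n * E2 = ∑ b : Fin n → Bool, gthr n (wt b) := by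
        rw [hE2, Finset.mul_sum]
        refine Finset.sum_congr rfl fun b _ => ?_
        rw [← mul_assoc, ← mul_pow]; norm_num
      rw [this, ← sum_bell (r := r) x y]
      rw [← Equiv.sum_comp e (fun a => ∑ b : Idx q n r, bell x y a b)]
      refine Finset.sum_congr rfl fun a _ => ?_
      exact Equiv.sum_comp e (fun b => bell x y (e a) b)
    rw [h2, h3]
    field_simp
  simp only [Fin.sum_univ_two, hterm] at hb
  have hE1b : 1 - 3 * k1 ^ n ≤ E1 := gthr_expect_low n p0_nonneg p0_le_one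
  have hE2b : -2 * k2 ^ n ≤ E2 := gthr_expect_unif n
  have hk1 : 0 ≤ k1 ^ n := pow_nonneg k1_nonneg n
  have hk2 : 0 ≤ k2 ^ n := pow_nonneg k2_nonneg n
  set ρ := (q : ℝ) * 2 ^ n / d with hρ
  have hρ0 : 0 ≤ ρ := by positivity
  have hρ1 : ρ ≤ 1 := by rw [hρ, div_le_one hd0]; exact hqd
  have hρr : ρ = 1 - r / d := by rw [hρ, hdR]; rw [hdR] at hd0; field_simp; ring
  set τ := (q : ℝ) * 2 ^ n * 2 ^ n / d ^ 2 with hτ
  have hτ0 : 0 ≤ τ := by positivity
  have hτ1 : τ ≤ 1 := by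
    rw [hτ, div_le_one (by positivity), sq]
    exact mul_le_mul hqd hd2n h2n.le hd0.le
  have hb' : v * (ρ * E1) + (1 - v) * (τ * E2) ≤ 1 / 2 := by linarith
  have h5 : v * (ρ * (1 - 3 * k1 ^ n)) ≤ v * (ρ * E1) :=
    mul_le_mul_of_nonneg_left (mul_le_mul_of_nonneg_left hE1b hρ0) hv0
  have h6 : -(2 * k2 ^ n) ≤ (1 - v) * (τ * E2) := by
    have h7 : τ * (-2 * k2 ^ n) ≤ τ * E2 := mul_le_mul_of_nonneg_left hE2b hτ0
    have h8 : (1 - v) * (τ * (-2 * k2 ^ n)) ≤ (1 - v) * (τ * E2) :=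
      mul_le_mul_of_nonneg_left h7 (by linarith)
    have h9 : (1 - v) * τ ≤ 1 := by nlinarith
    nlinarith
  have h10 : v * (ρ * (1 - 3 * k1 ^ n)) ≥ v - 3 * k1 ^ n - r / d := by
    have e1 : v * (ρ * (1 - 3 * k1 ^ n)) = v - v * (1 - ρ) - v * ρ * (3 * k1 ^ n) := by ring
    have e2 : v * (1 - ρ) ≤ r / d := by
      have : 1 - ρ = r / d := by rw [hρr]; ring
      rw [this]
      have : (0 : ℝ) ≤ r / d := by positivity
      nlinarith
    have e3 : v * ρ * (3 * k1 ^ n) ≤ 3 * k1 ^ n := by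
      have : v * ρ ≤ 1 := by nlinarith
      nlinarith
    rw [e1]; linarith
  linarith

lemma critVis_bddAbove (u w : Fin 2 → Fin d → (Fin d → ℂ)) :
    BddAbove {v : ℝ | v ∈ Set.Icc (0 : ℝ) 1 ∧ IsLocal (behaviour v u w)} :=
  ⟨1, fun _ hv => hv.1.2⟩

lemma le_critVis {u w : Fin 2 → Fin d → (Fin d → ℂ)} {v : ℝ} (hv : v ∈ Set.Icc (0 : ℝ) 1)
    (h : IsLocal (behaviour v u w)) : v ≤ critVis u w :=
  le_csSup (critVis_bddAbove u w) ⟨hv, h⟩

theorem half_le_critVis (hd : 0 < d) {u w : Fin 2 → Fin d → (Fin d → ℂ)} (hu : IsMeas u)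
    (hw : IsMeas w) : 1 / 2 ≤ critVis u w :=
  le_critVis ⟨by norm_num, by norm_num⟩ (isLocal_half hu hw hd)

theorem dkz_critVis (hd : 2 ≤ d) : 3 / 5 ≤ critVis (dkzA d) (dkzB d) :=
  le_critVis ⟨by norm_num, by norm_num⟩ (isLocal_dkz hd)

theorem exists_good (ε : ℝ) (hε : 0 < ε) : ∃ D : ℕ, ∀ d : ℕ, D ≤ d →
    ∃ u w : Fin 2 → Fin d → (Fin d → ℂ), IsMeas u ∧ IsMeas w ∧
      ∀ v ∈ Set.Icc (0 : ℝ) 1, IsLocal (behaviour v u w) → v ≤ 1 / 2 + ε := by
  have t1 : Filter.Tendsto (fun n : ℕ => 3 * k1 ^ n + 2 * k2 ^ n) Filter.atTop (nhds 0) := by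
    have a1 := (tendsto_pow_atTop_nhds_zero_of_lt_one k1_nonneg k1_lt).const_mul 3
    have a2 := (tendsto_pow_atTop_nhds_zero_of_lt_one k2_nonneg k2_lt).const_mul 2
    simpa using a1.add a2
  obtain ⟨n, hn⟩ := (t1.eventually (gt_mem_nhds (show (0 : ℝ) < ε / 2 by linarith))).exists
  obtain ⟨D, hD⟩ := exists_nat_gt ((2 : ℝ) ^ n * (2 / ε))
  refine ⟨max D (2 ^ n), fun d hdD => ?_⟩
  have hd1 : D ≤ d := le_trans (le_max_left _ _) hdD
  have hd2 : 2 ^ n ≤ d := le_trans (le_max_right _ _) hdD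
  have h2n : 0 < 2 ^ n := by positivity
  have hdec : d = (d / 2 ^ n) * 2 ^ n + d % 2 ^ n := by
    rw [mul_comm]; exact (Nat.div_add_mod d (2 ^ n)).symm
  have hq : 0 < d / 2 ^ n := Nat.div_pos hd2 h2n
  have hcard : Fintype.card (Fin d) = Fintype.card (Idx (d / 2 ^ n) n (d % 2 ^ n)) := by
    simp only [Fintype.card_fin, Fintype.card_sum, Fintype.card_prod, Fintype.card_fun,
      Fintype.card_bool]
    exact hdec
  let e : Fin d ≃ Idx (d / 2 ^ n) n (d % 2 ^ n) := Fintype.equivOfCardEq hcard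
  refine ⟨vecs e qA, vecs e qB, isMeas_vecs e qA qA_orth, isMeas_vecs e qB qB_orth, ?_⟩
  intro v hv hloc
  have h := vis_le hq hdec e hv.1 hv.2 hloc
  have hr : ((d % 2 ^ n : ℕ) : ℝ) / d ≤ ε / 2 := by
    have hd0 : (0 : ℝ) < d := by exact_mod_cast (lt_of_lt_of_le h2n hd2)
    rw [div_le_iff₀ hd0]
    have h3 : ((d % 2 ^ n : ℕ) : ℝ) ≤ 2 ^ n := by
      have := (Nat.mod_lt d h2n).le
      exact_mod_cast this
    have h4 : (2 : ℝ) ^ n * (2 / ε) < d := lt_of_lt_of_le hD (by exact_mod_cast hd1)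
    have h5 : (2 : ℝ) ^ n = ε / 2 * ((2 : ℝ) ^ n * (2 / ε)) := by field_simp
    calc ((d % 2 ^ n : ℕ) : ℝ) ≤ 2 ^ n := h3
      _ = ε / 2 * ((2 : ℝ) ^ n * (2 / ε)) := h5
      _ ≤ ε / 2 * d := by
        apply mul_le_mul_of_nonneg_left h4.le; linarith
  linarith

end Pool.Agent.helper2.DKZ
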