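import Pool.Agent.helper2.DKZ.Basic

set_option autoImplicit false

open scoped Matrix Kronecker ComplexConjugate BigOperators
open Matrix

namespace Pool.Agent.helper2.DKZ

variable {d : ℕ}

lemma sum_norm_sq_mulVec {W : Matrix (Fin d) (Fin d) ℂ} (hW : W * Wᴴ = 1) (z : Fin d → ℂ)
    (hz : star z ⬝ᵥ z = 1) : ∑ b, ‖(W *ᵥ z) b‖ ^ 2 = (1 : ℝ) := by
  have hW' : Wᴴ * W = 1 := mul_eq_one_comm.mp hW
  have h1 : star (W *ᵥ z) ⬝ᵥ (W *ᵥ z) = 1 := by
    rw [star_mulVec, dotProduct_mulVec, vecMul_vecMul, hW', vecMul_one, hz]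
  have h2 : star (W *ᵥ z) ⬝ᵥ (W *ᵥ z) = ((∑ b, ‖(W *ᵥ z) b‖ ^ 2 : ℝ) : ℂ) := by
    simp only [dotProduct, Pi.star_apply]
    push_cast
    refine Finset.sum_congr rfl fun b _ => ?_
    rw [mul_comm, Complex.star_def, Complex.mul_conj, Complex.normSq_eq_norm_sq]
    push_cast
    ring
  rw [h2] at h1
  exact_mod_cast h1

lemma row_unitary {w : Fin 2 → Fin d → (Fin d → ℂ)} (hw : IsMeas w) (y : Fin 2) :
    (Matrix.of fun b j => w y b j) * (Matrix.of fun b j => w y b j)ᴴ = 1 := by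
  ext b b'
  rw [Matrix.mul_apply, Matrix.one_apply]
  have h := hw y b' b
  simp only [dotProduct, Pi.star_apply] at h
  simp only [conjTranspose_apply, of_apply]
  rw [show (∑ j, w y b j * star (w y b' j)) = ∑ j, star (w y b' j) * w y b j from
    Finset.sum_congr rfl fun j _ => mul_comm _ _, h]
  simp [eq_comm]

lemma sum_ov_right {u w : Fin 2 → Fin d → (Fin d → ℂ)} (hu : IsMeas u) (hw : IsMeas w)
    (x y : Fin 2) (a : Fin d) : ∑ b, ‖ov u w x y a b‖ ^ 2 = 1 := by
  have h := sum_norm_sq_mulVec (row_unitary hw y) (u x a) (by rw [hu x a a, if_pos rfl])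
  rw [← h]
  refine Finset.sum_congr rfl fun b _ => ?_
  congr 2
  simp [ov, mulVec, dotProduct, mul_comm]

lemma sum_ov_left {u w : Fin 2 → Fin d → (Fin d → ℂ)} (hu : IsMeas u) (hw : IsMeas w)
    (x y : Fin 2) (b : Fin d) : ∑ a, ‖ov u w x y a b‖ ^ 2 = 1 := by
  have h := sum_norm_sq_mulVec (row_unitary hu x) (w y b) (by rw [hw y b b, if_pos rfl])
  rw [← h]
  refine Finset.sum_congr rfl fun a _ => ?_
  congr 2

/-- joint distributions with uniform marginals -/
structure Joint (π : Fin d → Fin d → ℝ) : Prop where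
  nonneg : ∀ a b, 0 ≤ π a b
  row : ∀ a, ∑ b, π a b = 1 / d
  col : ∀ b, ∑ a, π a b = 1 / d

lemma Joint.total {π : Fin d → Fin d → ℝ} (h : Joint π) (hd : 0 < d) : ∑ a, ∑ b, π a b = 1 := by
  simp_rw [h.row]
  have : (d : ℝ) ≠ 0 := by positivity
  simp [this]

lemma isLocal_pair {π1 π2 : Fin d → Fin d → ℝ} (h1 : Joint π1) (h2 : Joint π2) (hd : 0 < d)
    (σ : Fin 2 → Fin 2) (hσ : σ = id ∨ σ = fun x => 1 - x) :
    IsLocal (fun x y a b => if y = σ x then (if x = 0 then π1 a b else π2 a b) else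
      1 / (d : ℝ) ^ 2) := by
  refine isLocal_of_model (Ω := (Fin d × Fin d) × (Fin d × Fin d))
    (fun ω => π1 ω.1.1 ω.1.2 * π2 ω.2.1 ω.2.2)
    (fun ω => mul_nonneg (h1.nonneg _ _) (h2.nonneg _ _)) ?_
    (fun ω x => if x = 0 then ω.1.1 else ω.2.1)
    (fun ω y => if y = σ 0 then ω.1.2 else ω.2.2) _ ?_
  · simp only [Fintype.sum_prod_type]
    have : ∑ a, ∑ b, ∑ a', ∑ b', π1 a b * π2 a' b' = (∑ a, ∑ b, π1 a b) * (∑ a, ∑ b, π2 a b) := by
      simp_rw [← Finset.mul_sum, ← Finset.sum_mul]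
    rw [this, h1.total hd, h2.total hd, one_mul]
  · have e1 : ∀ a b : Fin d, ∑ ω : (Fin d × Fin d) × (Fin d × Fin d),
        (π1 ω.1.1 ω.1.2 * π2 ω.2.1 ω.2.2) * (if a = ω.1.1 ∧ b = ω.1.2 then 1 else 0) = π1 a b := by
      intro a b
      simp only [Fintype.sum_prod_type]
      have : ∀ a1 b1 : Fin d, ∑ a2, ∑ b2, π1 a1 b1 * π2 a2 b2 *
          (if a = a1 ∧ b = b1 then (1 : ℝ) else 0) = (if a = a1 ∧ b = b1 then π1 a1 b1 else 0) := by
        intro a1 b1
        have : ∑ a2, ∑ b2, π1 a1 b1 * π2 a2 b2 *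
          (if a = a1 ∧ b = b1 then (1 : ℝ) else 0) =
          (∑ a2, ∑ b2, π2 a2 b2) * (π1 a1 b1 * (if a = a1 ∧ b = b1 then (1 : ℝ) else 0)) := by
          simp only [Finset.sum_mul]
          refine Finset.sum_congr rfl fun _ _ => Finset.sum_congr rfl fun _ _ => by ring
        rw [this, h2.total hd, one_mul, mul_ite, mul_one, mul_zero]
      simp_rw [this]
      simp [ite_and]
    have e2 : ∀ a b : Fin d, ∑ ω : (Fin d × Fin d) × (Fin d × Fin d),
        (π1 ω.1.1 ω.1.2 * π2 ω.2.1 ω.2.2) * (if a = ω.2.1 ∧ b = ω.2.2 then 1 else 0) = π2 a b := by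
      intro a b
      simp only [Fintype.sum_prod_type]
      have : ∀ a1 b1 : Fin d, ∑ a2, ∑ b2, π1 a1 b1 * π2 a2 b2 *
          (if a = a2 ∧ b = b2 then (1 : ℝ) else 0) = π1 a1 b1 * π2 a b := by
        intro a1 b1
        simp [ite_and]
      simp_rw [this]
      simp only [← Finset.sum_mul]
      rw [h1.total hd, one_mul]
    have e3 : ∀ a b : Fin d, ∑ ω : (Fin d × Fin d) × (Fin d × Fin d),
        (π1 ω.1.1 ω.1.2 * π2 ω.2.1 ω.2.2) * (if a = ω.1.1 ∧ b = ω.2.2 then 1 else 0)
          = 1 / (d : ℝ) ^ 2 := by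
      intro a b
      simp only [Fintype.sum_prod_type]
      have : ∀ a1 b1 : Fin d, ∑ a2, ∑ b2, π1 a1 b1 * π2 a2 b2 *
          (if a = a1 ∧ b = b2 then (1 : ℝ) else 0) = (if a = a1 then π1 a1 b1 * (1 / d) else 0) := by
        intro a1 b1
        by_cases h : a = a1
        · simp only [h, true_and, mul_ite, mul_one, mul_zero, Finset.sum_ite_eq, Finset.mem_univ,
            if_true]
          rw [← Finset.mul_sum, h2.col]
        · simp [h]
      simp_rw [this]
      rw [Finset.sum_comm]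
      simp only [Finset.sum_ite_eq, Finset.mem_univ, if_true]
      rw [← Finset.sum_mul, h1.row]
      field_simp
    have e4 : ∀ a b : Fin d, ∑ ω : (Fin d × Fin d) × (Fin d × Fin d),
        (π1 ω.1.1 ω.1.2 * π2 ω.2.1 ω.2.2) * (if a = ω.2.1 ∧ b = ω.1.2 then 1 else 0)
          = 1 / (d : ℝ) ^ 2 := by
      intro a b
      simp only [Fintype.sum_prod_type]
      have : ∀ a1 b1 : Fin d, ∑ a2, ∑ b2, π1 a1 b1 * π2 a2 b2 *
          (if a = a2 ∧ b = b1 then (1 : ℝ) else 0) = (if b = b1 then π1 a1 b1 * (1 / d) else 0) := by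
        intro a1 b1
        by_cases h : b = b1
        · simp only [h, and_true, mul_ite, mul_one, mul_zero]
          rw [Finset.sum_comm]
          simp only [Finset.sum_ite_eq, Finset.mem_univ, if_true]
          rw [← Finset.mul_sum, h2.row]
        · simp [h]
      simp_rw [this]
      simp only [Finset.sum_ite_eq, Finset.mem_univ, if_true]
      rw [← Finset.sum_mul, h1.col]
      field_simp
    intro x y a b
    rcases hσ with rfl | rfl
    · fin_cases x <;> fin_cases y
      · simpa using (e1 a b).symm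
      · simpa using (e3 a b).symm
      · simpa using (e4 a b).symm
      · simpa using (e2 a b).symm
    · fin_cases x <;> fin_cases y
      · simpa using (e3 a b).symm
      · simpa using (e1 a b).symm
      · simpa using (e2 a b).symm
      · simpa using (e4 a b).symm

lemma isLocal_shift [NeZero d] (oA oB : Fin 2 → Fin d) :
    IsLocal (fun x y a b => if a - oA x = b - oB y then 1 / (d : ℝ) else 0) := by
  have hd : (d : ℝ) ≠ 0 := by exact_mod_cast NeZero.ne d
  refine isLocal_of_model (Ω := Fin d) (fun _ => 1 / d) (fun _ => by positivity) (by simp [hd])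
    (fun k x => k + oA x) (fun k y => k + oB y) _ ?_
  intro x y a b
  have : ∀ k : Fin d, (1 / (d : ℝ)) * (if a = k + oA x ∧ b = k + oB y then 1 else 0)
      = if k = a - oA x then (if a - oA x = b - oB y then 1 / (d : ℝ) else 0) else 0 := by
    intro k
    have hiff : (a = k + oA x ∧ b = k + oB y) ↔ (k = a - oA x ∧ a - oA x = b - oB y) := by
      constructor
      · rintro ⟨rfl, rfl⟩
        simp
      · rintro ⟨rfl, h⟩
        refine ⟨by simp, ?_⟩
        rw [h]; simp
    by_cases h1 : k = a - oA x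
    · by_cases h2 : a - oA x = b - oB y
      · rw [if_pos (hiff.mpr ⟨h1, h2⟩), if_pos h1, if_pos h2, mul_one]
      · rw [if_neg (fun h => h2 (hiff.mp h).2), if_pos h1, if_neg h2, mul_zero]
    · rw [if_neg (fun h => h1 (hiff.mp h).1), if_neg h1, mul_zero]
  simp_rw [this]
  simp

/-- every measurement has critical visibility at least `1/2`: `p_{1/2}` is local -/
lemma isLocal_half {u w : Fin 2 → Fin d → (Fin d → ℂ)} (hu : IsMeas u) (hw : IsMeas w)
    (hd : 0 < d) : IsLocal (behaviour (1 / 2) u w) := by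
  have hd' : (d : ℝ) ≠ 0 := by positivity
  have hJ : ∀ x y, Joint (fun a b => ‖ov u w x y a b‖ ^ 2 / d) := by
    intro x y
    refine ⟨fun a b => by positivity, fun a => ?_, fun b => ?_⟩
    · rw [← Finset.sum_div, sum_ov_right hu hw]
    · rw [← Finset.sum_div, sum_ov_left hu hw]
  have h := (isLocal_pair (hJ 0 0) (hJ 1 1) hd id (Or.inl rfl)).combo
    (isLocal_pair (hJ 0 1) (hJ 1 0) hd (fun x => 1 - x) (Or.inr rfl))
    (s := 1 / 2) (t := 1 / 2) (by norm_num) (by norm_num) (by norm_num)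
  convert h using 1
  funext x y a b
  rw [behaviour_eq hu hw]
  simp only [Pi.add_apply, Pi.smul_apply, smul_eq_mul]
  fin_cases x <;> fin_cases y <;> simp <;> ring

end Pool.Agent.helper2.DKZ
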